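import Mathlib
import Pool.Agent.Lib.MP_9087e4_co.Mz.Main

set_option autoImplicit false

open Pool.Agent.Lib.MP_9087e4_co

namespace Pool.Agent.Lib.MP_9087e4_co.Old.SparseRigid

/-- Locally sparse graphs in which every vertex set `A` spans at most `(1 - ε) d |A|` edges are
independent in the generic rigidity matroid `R_d`. -/
theorem sparse_rigid (ε : ℝ) (hε : 0 < ε) : ∃ δ : ℝ, 0 < δ ∧ ∃ d0 : ℕ, ∀ d : ℕ, d0 ≤ d →
    ∀ (n : ℕ) (G : SimpleGraph (Fin n)),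
      (∀ A : Set (Fin n), ({e ∈ G.edgeSet | ∀ v ∈ e, v ∈ A}.ncard : ℝ) ≤ (1 - ε) * d * A.ncard) →
      (∀ u v, u ≠ v → ((G.commonNeighbors u v).ncard : ℝ) ≤ δ * d) →
      ∀ p : Fin n → Fin d → ℝ, Generic p → LinearIndepOn ℝ (rigRow p) G.edgeSet := by
  obtain ⟨δ, hδ, d0, h⟩ := Mz.sparse_both3 ε hε
  refine ⟨δ, hδ, d0, fun d hd n G h1 h2 p hp => ?_⟩
  obtain ⟨F, hF, -, h3⟩ := h d hd n G h1 h2
  exact hF ▸ h3.gen hp

end Pool.Agent.Lib.MP_9087e4_co.Old.SparseRigid
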