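import Mathlib
import Pool.Agent.Lib.MP_9087e4_co.TreeDec

set_option autoImplicit false

open Pool.Agent.Lib.MP_9087e4_co

namespace Pool.Agent.Lib.MP_9087e4_co.Old.Treewidth

/-- For graphs of treewidth at most `d + 2`, every edge set that is independent in the generic
rigidity matroid `R_d` is independent in the generic `C^(d-2)_(d-1)`-cofactor matroid. -/
theorem treewidth (d n : ℕ) (hd : 2 ≤ d) (G : SimpleGraph (Fin n)) (hG : TreewidthLE G (d + 2))
    (p : Fin n → Fin d → ℝ) (hp : Generic p) (q : Fin n → Fin 2 → ℝ) (hq : Generic q)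
    (F : Set (Sym2 (Fin n))) (hF : F ⊆ G.edgeSet) (h : LinearIndepOn ℝ (rigRow p) F) :
    LinearIndepOn ℝ (cofRow (d - 1) q) F := by
  obtain ⟨k, rfl⟩ : ∃ k, d = k + 1 := ⟨d - 1, by omega⟩
  lift F to Finset (Sym2 (Fin n)) using Set.toFinite F
  obtain ⟨H, ord, hGH, hH⟩ := hG.exists_peo
  exact hq.reg.ind F (gind_of_peo hq.reg (by omega) hp.kcirc hH F
    (fun e he => SimpleGraph.edgeSet_mono hGH (hF he)) h)

end Pool.Agent.Lib.MP_9087e4_co.Old.Treewidth
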